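import Pool.Agent.Work.MP_7ec17a_gt_V.Graphs

/-!
# MP_7ec17a_gt: every aspect ratio, for two arbitrary continuous graphs

`f` and `g` are arbitrary continuous functions on `[t0, t1]` with the same values at the two end
points, not everywhere equal; their graphs form a closed curve (a Jordan curve when `f < g`
inside).  The only other hypothesis is a right-angle condition at the two end points
`A = (t0, f t0)` and `B = (t1, f t1)`: a point of the graph of `f` and a point of the graph of `g`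
are never seen from `A`, nor from `B`, under an angle larger than `π / 2`.  (It holds for instance
when the curve lies in a square that has `A` and `B` as opposite corners.)  Then for every `r > 0`
there is an inscribed rectangle `p, p + v, p + v + i r v, p + i r v` with `v ≠ 0`; its side
`p, p + v` has both ends on the graph of `f` and the opposite side has both ends on the graph of
`g`.

The proof is a mountain pass for the action functional
`F x - F (x + a) - G (x - r b) + G (x + a - r b) + r (b ^ 2 - a ^ 2) / 2`, `F' = f`, `G' = g`.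
-/

set_option autoImplicit false

open Set

namespace Pool.Agent.Results.MP_7ec17a_gt.ContinuousGraphs

/-- Two arbitrary continuous graphs with common end points and the right-angle condition at the end
points inscribe rectangles of every aspect ratio. -/
theorem result (t0 t1 : ℝ) (h01 : t0 < t1) (f g : ℝ → ℝ)
    (hf : ContinuousOn f (Icc t0 t1)) (hg : ContinuousOn g (Icc t0 t1))
    (h0 : f t0 = g t0) (h1 : f t1 = g t1) (hfg : ∃ x ∈ Icc t0 t1, f x ≠ g x)
    (hA : ∀ x ∈ Icc t0 t1, ∀ x' ∈ Icc t0 t1,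
      0 ≤ (x - t0) * (x' - t0) + (f x - f t0) * (g x' - g t0))
    (hB : ∀ x ∈ Icc t0 t1, ∀ x' ∈ Icc t0 t1,
      0 ≤ (t1 - x) * (t1 - x') + (f t1 - f x) * (g t1 - g x'))
    (r : ℝ) (hr : 0 < r) :
    ∃ p v : ℂ, v ≠ 0 ∧
      p ∈ {z : ℂ | z.re ∈ Icc t0 t1 ∧ z.im = f z.re} ∧
      p + v ∈ {z : ℂ | z.re ∈ Icc t0 t1 ∧ z.im = f z.re} ∧
      p + v + Complex.I * (r : ℂ) * v ∈ {z : ℂ | z.re ∈ Icc t0 t1 ∧ z.im = g z.re} ∧
      p + Complex.I * (r : ℂ) * v ∈ {z : ℂ | z.re ∈ Icc t0 t1 ∧ z.im = g z.re} := by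
  obtain ⟨x0, hx0, hne⟩ := hfg
  have k1 : ∀ x y a b : ℝ, (⟨x, y⟩ : ℂ) + ⟨a, b⟩ = ⟨x + a, y + b⟩ := fun x y a b => rfl
  have k2 : ∀ x y a b : ℝ, (⟨x, y⟩ : ℂ) + Complex.I * (r : ℂ) * ⟨a, b⟩ =
      ⟨x - r * b, y + r * a⟩ := fun x y a b => by
    apply Complex.ext
    · simp
      ring
    · simp
  rcases lt_or_gt_of_ne hne with hlt | hlt
  · obtain ⟨x, a, b, ha, r1, r2, r3, m1, m2, m3, m4⟩ :=
      Pool.MP_7ec17a_gt.V.core h01 hf hg h0 h1 hx0 hlt hA hB hr
    refine ⟨⟨x, f x⟩, ⟨a, b⟩, fun h => ha (congrArg Complex.re h), ⟨m1, rfl⟩, ?_, ?_, ?_⟩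
    · rw [k1]
      exact ⟨m2, r1.symm⟩
    · rw [k1 x (f x) a b, k2]
      exact ⟨m4, r3.symm⟩
    · rw [k2]
      exact ⟨m3, r2.symm⟩
  · obtain ⟨x, a, b, ha, r1, r2, r3, m1, m2, m3, m4⟩ :=
      Pool.MP_7ec17a_gt.V.core (f := fun x => -f x) (g := fun x => -g x) h01 hf.neg hg.neg
        (by simp [h0]) (by simp [h1]) hx0 (by simpa using hlt)
        (fun x hx x' hx' => by have := hA x hx x' hx'; linarith)
        (fun x hx x' hx' => by have := hB x hx x' hx'; linarith) hr
    have e1 : x + a + -a = x := by ring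
    have e2 : x + a + -a - r * b = x - r * b := by ring
    refine ⟨⟨x + a, f (x + a)⟩, ⟨-a, b⟩, fun h => ha (neg_eq_zero.1 (congrArg Complex.re h)),
      ⟨m2, rfl⟩, ?_, ?_, ?_⟩
    · rw [k1]
      refine ⟨by rw [e1]; exact m1, ?_⟩
      change f (x + a) + b = f (x + a + -a)
      rw [e1]
      linarith
    · rw [k1 (x + a) (f (x + a)) (-a) b, k2]
      refine ⟨by rw [e2]; exact m3, ?_⟩
      change f (x + a) + b + r * (-a) = g (x + a + -a - r * b)
      rw [e2]
      linarith
    · rw [k2]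
      refine ⟨m4, ?_⟩
      change f (x + a) + r * (-a) = g (x + a - r * b)
      linarith

end Pool.Agent.Results.MP_7ec17a_gt.ContinuousGraphs
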