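import Pool.Agent.Work.MP_7ec17a_gt_W.TOP
import Pool.Agent.Work.MP_7ec17a_gt_W.PLAT
import Pool.Agent.Work.MP_7ec17a_gt_W.TUBE
import Pool.Agent.Work.MP_7ec17a_gt_W.CLOSE
import Pool.Agent.Work.MP_7ec17a_gt_W.UNI
import Pool.Agent.Work.MP_7ec17a_gt_W.SUPS
import Pool.Agent.Work.MP_7ec17a_gt_W.HULL
import Pool.Agent.Work.MP_7ec17a_gt_W.STR
import Pool.Agent.Work.MP_7ec17a_gt_W.TIL
import Pool.Agent.Work.MP_7ec17a_gt_W.NARR
import Pool.Agent.Work.MP_7ec17a_gt_W.STRI
import Pool.Agent.Work.MP_7ec17a_gt_W.SLICE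
import Pool.Agent.Work.MP_7ec17a_gt_W.CONT
import Pool.Agent.Work.MP_7ec17a_gt_W.MAXI
import Pool.Agent.Work.MP_7ec17a_gt_W.FIN
import Pool.Agent.Work.MP_7ec17a_gt_D.HOPF
import Pool.Agent.Work.MP_7ec17a_gt_D.SUPP
import Pool.Agent.Work.MP_7ec17a_gt_D.MONO
import Pool.Agent.Work.MP_7ec17a_gt_D.ORI

/-!
# MP_7ec17a_gt: every Jordan curve inscribes rectangles of all sufficiently large aspect ratios

For EVERY Jordan curve `γ` (the image of a continuous injective map of the circle, no regularity)
there is `R > 0` such that for every `r ≥ R`, and every `r` with `0 < r ≤ 1 / R`, there is a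
nondegenerate rectangle `a, a + v, a + v + i r v, a + i r v` with its four vertices on `γ`.

Proof.  Let `D` be the diameter of `γ` and `Θ` the set of the directions in which the width of `γ`
is `D` (the directions of the diametral pairs).
* If the width is smaller than `D` in two directions, on both sides of a diametral pair and at a
  total angle of at most `π / 2`: two trapping directions (support pairs leaning inwards), two
  separating lines, the continuous argument of the chords normalised by support points, and the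
  Poincare-Miranda theorem in dimension `4`.
* Otherwise, if `Θ` is not everything, it is, modulo `π`, an interval of length in `[π / 2, π)`; the
  curve contains the two arcs of the boundary of its convex hull with these normal directions, and
  a longer box along the two arcs, with the separating lines used only near the ends, works.
* If `Θ` is everything, `γ` is the boundary of a body of constant width: the strip which maximises
  the area of its intersection with the body minus `r / 2` times the square of its breadth cuts the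
  boundary in the vertices of a rectangle of ratio `r`.
-/

set_option autoImplicit false

open Set

namespace Pool.Agent.Results.MP_7ec17a_gt.EveryJordanCurve

/-- Every Jordan curve inscribes a nondegenerate rectangle of every sufficiently large aspect ratio
(and of every sufficiently small one, which is the same). -/
theorem result (γ : Circle → ℂ) (hγ : Continuous γ) (hinj : Function.Injective γ) :
    ∃ R : ℝ, 0 < R ∧ ∀ r : ℝ, 0 < r → (R ≤ r ∨ r ≤ 1 / R) →
      ∃ a v : ℂ, v ≠ 0 ∧ a ∈ Set.range γ ∧ a + v ∈ Set.range γ ∧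
        a + v + Complex.I * (r : ℂ) * v ∈ Set.range γ ∧
        a + Complex.I * (r : ℂ) * v ∈ Set.range γ :=
  Pool.MP_7ec17a_gt.D.both (Pool.MP_7ec17a_gt.D.every
    Pool.MP_7ec17a_gt.D.stmt_SUPP Pool.MP_7ec17a_gt.D.stmt_MONO
    (Pool.MP_7ec17a_gt.D.stmt_ORI Pool.MP_7ec17a_gt.D.stmt_HOPF)
    (Pool.MP_7ec17a_gt.D.stmt_HULL Pool.MP_7ec17a_gt.D.stmt_UNI Pool.MP_7ec17a_gt.D.stmt_SUPS)
    (Pool.MP_7ec17a_gt.D.stmt_STR Pool.MP_7ec17a_gt.D.stmt_UNI)
    Pool.MP_7ec17a_gt.D.stmt_TUBE Pool.MP_7ec17a_gt.D.stmt_CLOSE Pool.MP_7ec17a_gt.D.stmt_UNI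
    Pool.MP_7ec17a_gt.D.stmt_SUPS Pool.MP_7ec17a_gt.D.stmt_TIL Pool.MP_7ec17a_gt.D.stmt_PLAT
    Pool.MP_7ec17a_gt.D.stmt_NARR Pool.MP_7ec17a_gt.B.stmt_STRI
    (Pool.MP_7ec17a_gt.B.stmt_MAXI Pool.MP_7ec17a_gt.B.stmt_CONT)
    (Pool.MP_7ec17a_gt.B.stmt_FIN Pool.MP_7ec17a_gt.B.stmt_SLICE) γ hγ hinj)

end Pool.Agent.Results.MP_7ec17a_gt.EveryJordanCurve
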