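import Pool.Agent.Work.MP_7ec17a_gt_R.Arcs
import Pool.Agent.Work.MP_7ec17a_gt_T.Core

/-!
# MP_7ec17a_gt: Jordan curves made of two arcs seen under right angles

`α` and `β` are two arcs from `A = α 0 = β 0` to `B = α 1 = β 1` that meet only at `A` and `B`:
together they form an arbitrary Jordan curve through `A` and `B`.  No regularity is assumed of
the curve away from `A` and `B`, and none of `α` at all except the last condition below.

* A point `z` of `α` and a point `w` of `β` are always seen from `A`, and from `B`, under an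
  angle of at most `π / 2`: the scalar products of `z - A`, `w - A` and of `z - B`, `w - B` are
  nonnegative.  (This holds, for example, if the curve lies in a closed rectangle that has `A`
  and `B` as opposite corners; it also holds for many curves that are in no such rectangle.)
* `β` has a half-tangent at `A` and at `B`.
* `α` does not approach `A`, nor `B`, along this half-tangent.

Then for every `r > 0` there is an inscribed rectangle `p, p + v, p + v + i r v, p + i r v`,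
`v ≠ 0`; the side `p, p + v` has both ends on `α` and the opposite side has both ends on `β`.

The proof is a winding number argument for the pair of sides (with respect to `β`, continued by
two rays) of the two vertices `p + i r v`, `p + v + i r v`, on the half plane of ordered pairs of
points `p`, `p + v` of `α` (continued by the same two rays).
-/

set_option autoImplicit false

open Set Filter Topology

namespace Pool.Agent.Results.MP_7ec17a_gt.RightAngleArcs

/-- Two arcs from `A` to `B` such that a point of one and a point of the other are always seen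
from `A` and from `B` under an angle of at most `π / 2` inscribe rectangles of every aspect
ratio, if one of the two arcs has half-tangents at `A` and `B` and the other one does not
approach `A` and `B` along them. -/
theorem result (α β : ℝ → ℂ) (hα : ContinuousOn α (Icc 0 1)) (hβ : ContinuousOn β (Icc 0 1))
    (hαi : InjOn α (Icc 0 1)) (hβi : InjOn β (Icc 0 1)) (hA : α 0 = β 0) (hB : α 1 = β 1)
    (hdisj : ∀ s ∈ Ioo (0 : ℝ) 1, ∀ t ∈ Ioo (0 : ℝ) 1, α s ≠ β t)
    (hR : ∀ z ∈ α '' Icc 0 1, ∀ w ∈ β '' Icc 0 1,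
      0 ≤ ((z - α 0) * (starRingEnd ℂ) (w - β 0)).re ∧
      0 ≤ ((z - α 1) * (starRingEnd ℂ) (w - β 1)).re)
    (htA : ∃ e : ℂ, Tendsto (fun t : ℝ => (β t - β 0) / (‖β t - β 0‖ : ℂ)) (𝓝[>] 0) (𝓝 e) ∧
      ∃ ε : ℝ, 0 < ε ∧ ∀ᶠ s in 𝓝[>] (0 : ℝ), ε ≤ ‖(α s - α 0) / (‖α s - α 0‖ : ℂ) - e‖)
    (htB : ∃ e : ℂ, Tendsto (fun t : ℝ => (β t - β 1) / (‖β t - β 1‖ : ℂ)) (𝓝[<] 1) (𝓝 e) ∧
      ∃ ε : ℝ, 0 < ε ∧ ∀ᶠ s in 𝓝[<] (1 : ℝ), ε ≤ ‖(α s - α 1) / (‖α s - α 1‖ : ℂ) - e‖)
    (r : ℝ) (hr : 0 < r) :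
    ∃ p v : ℂ, v ≠ 0 ∧ p ∈ α '' Icc 0 1 ∧ p + v ∈ α '' Icc 0 1 ∧
      p + v + Complex.I * (r : ℂ) * v ∈ β '' Icc 0 1 ∧
      p + Complex.I * (r : ℂ) * v ∈ β '' Icc 0 1 := by
  have h01 : (0 : ℝ) ≤ 1 := zero_le_one
  have hAB : α 1 - α 0 ≠ 0 := by
    intro h
    have := hαi ⟨h01, le_rfl⟩ ⟨le_rfl, h01⟩ (sub_eq_zero.1 h)
    exact one_ne_zero this
  set ℓ : ℝ := ‖α 1 - α 0‖ with hℓd
  have hℓ : 0 < ℓ := norm_pos_iff.2 hAB
  set u : ℂ := (starRingEnd ℂ) (α 1 - α 0) / (ℓ : ℂ) with hud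
  have hu : ‖u‖ = 1 := by
    rw [hud, norm_div, Complex.norm_conj, Complex.norm_real, Real.norm_eq_abs,
      abs_of_pos hℓ, ← hℓd, div_self hℓ.ne']
  have huB : u * (α 1 - α 0) = (ℓ : ℂ) := by
    have hℓc : (ℓ : ℂ) ≠ 0 := Complex.ofReal_ne_zero.2 hℓ.ne'
    have h1 : (starRingEnd ℂ) (α 1 - α 0) * (α 1 - α 0) = (ℓ : ℂ) * ℓ := by
      rw [mul_comm, Complex.mul_conj, Complex.normSq_eq_norm_sq, ← hℓd]
      push_cast; ring
    rw [hud, div_mul_eq_mul_div, h1, mul_div_cancel_right₀ _ hℓc]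
  have hu0 : u ≠ 0 := by
    intro h; rw [h, norm_zero] at hu; exact zero_ne_one hu
  have huu : u.re * u.re + u.im * u.im = 1 := by
    rw [← Complex.normSq_apply, Complex.normSq_eq_norm_sq, hu, one_pow]
  set cl : ℝ → ℝ := fun s => (projIcc (0 : ℝ) 1 h01 s : ℝ) with hcl
  have clc : Continuous cl := continuous_subtype_val.comp continuous_projIcc
  have clI : ∀ s, cl s ∈ Icc (0 : ℝ) 1 := fun s => (projIcc (0 : ℝ) 1 h01 s).2
  have cl0 : ∀ s, s ≤ 0 → cl s = 0 := fun s hs => by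
    simp only [hcl]; rw [projIcc_of_le_left h01 hs]
  have cl1 : ∀ s, 1 ≤ s → cl s = 1 := fun s hs => by
    simp only [hcl]; rw [projIcc_of_right_le h01 hs]
  have clm : ∀ s ∈ Icc (0 : ℝ) 1, cl s = s := fun s hs => by
    simp only [hcl]; rw [projIcc_of_mem h01 hs]
  set a : ℝ → ℂ := fun s => u * (α (cl s) - α 0) with ha
  set b : ℝ → ℂ := fun s => u * (β (cl s) - β 0) with hb
  have acont : Continuous a := by
    have h : Continuous fun s => α (cl s) := hα.comp_continuous clc clI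
    exact continuous_const.mul (h.sub continuous_const)
  have bcont : Continuous b := by
    have h : Continuous fun s => β (cl s) := hβ.comp_continuous clc clI
    exact continuous_const.mul (h.sub continuous_const)
  have a0 : ∀ s, s ≤ 0 → a s = 0 := fun s hs => by
    simp only [ha]; rw [cl0 s hs, sub_self, mul_zero]
  have a1 : ∀ s, 1 ≤ s → a s = ℓ := fun s hs => by
    simp only [ha]; rw [cl1 s hs, huB]
  have b0 : ∀ s, s ≤ 0 → b s = 0 := fun s hs => by
    simp only [hb]; rw [cl0 s hs, sub_self, mul_zero]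
  have b1 : ∀ s, 1 ≤ s → b s = ℓ := fun s hs => by
    simp only [hb]; rw [cl1 s hs, ← hA, ← hB, huB]
  have hdt : ∀ z w : ℂ, Pool.MP_7ec17a_gt.T.dt (u * z) (u * w) = (z * (starRingEnd ℂ) w).re := by
    intro z w
    have h1 : Pool.MP_7ec17a_gt.T.dt (u * z) (u * w) =
        (u.re * u.re + u.im * u.im) * (z.re * w.re + z.im * w.im) := by
      simp only [Pool.MP_7ec17a_gt.T.dt, Complex.mul_re, Complex.mul_im]; ring
    rw [h1, huu, one_mul]
    simp [Complex.mul_re]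
  have R0 : ∀ s t, 0 ≤ Pool.MP_7ec17a_gt.T.dt (a s) (b t) := fun s t => by
    simp only [ha, hb]
    rw [hdt]
    exact (hR _ (mem_image_of_mem _ (clI s)) _ (mem_image_of_mem _ (clI t))).1
  have R1 : ∀ s t, 0 ≤ Pool.MP_7ec17a_gt.T.dt (a s - ℓ) (b t - ℓ) := fun s t => by
    have e1 : a s - ℓ = u * (α (cl s) - α 1) := by
      simp only [ha]; rw [← huB]; ring
    have e2 : b t - ℓ = u * (β (cl t) - β 1) := by
      simp only [hb]; rw [← huB, hA, hB]; ring
    rw [e1, e2, hdt]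
    exact (hR _ (mem_image_of_mem _ (clI s)) _ (mem_image_of_mem _ (clI t))).2
  have ainj : InjOn a (Icc 0 1) := by
    intro x hx y hy h
    simp only [ha] at h
    rw [clm x hx, clm y hy] at h
    exact hαi hx hy (sub_left_injective (mul_left_cancel₀ hu0 h))
  have binj : InjOn b (Icc 0 1) := by
    intro x hx y hy h
    simp only [hb] at h
    rw [clm x hx, clm y hy] at h
    exact hβi hx hy (sub_left_injective (mul_left_cancel₀ hu0 h))
  have disj : ∀ s ∈ Ioo (0 : ℝ) 1, ∀ t, a s ≠ b t := by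
    intro s hs t h
    simp only [ha, hb] at h
    rw [clm s ⟨hs.1.le, hs.2.le⟩, hA] at h
    have h' : α s = β (cl t) := sub_left_injective (mul_left_cancel₀ hu0 h)
    have hcl := clI t
    rcases hcl.1.lt_or_eq with h2 | h2
    · rcases hcl.2.lt_or_eq with h3 | h3
      · exact hdisj s hs _ ⟨h2, h3⟩ h'
      · rw [h3, ← hB] at h'
        have := hαi ⟨hs.1.le, hs.2.le⟩ ⟨h01, le_rfl⟩ h'
        linarith [hs.2]
    · rw [← h2, ← hA] at h'
      have := hαi ⟨hs.1.le, hs.2.le⟩ ⟨le_rfl, h01⟩ h'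
      linarith [hs.1]
  have mulnorm : ∀ z : ℂ, u * z / (‖u * z‖ : ℂ) = u * (z / (‖z‖ : ℂ)) := fun z => by
    rw [norm_mul, hu, one_mul, mul_div_assoc]
  have ev0 : ∀ᶠ t in 𝓝[>] (0 : ℝ), t ∈ Ioc (0 : ℝ) 1 := Ioc_mem_nhdsGT one_pos
  have ev1 : ∀ᶠ t in 𝓝[<] (1 : ℝ), t ∈ Ico (0 : ℝ) 1 := Ico_mem_nhdsLT one_pos
  obtain ⟨e, he, ε, hε, hεe⟩ := htA
  obtain ⟨f, hf, ε', hε', hεf⟩ := htB
  have he' : Tendsto (fun t => b t / (‖b t‖ : ℂ)) (𝓝[>] 0) (𝓝 (u * e)) := by
    refine (he.const_mul u).congr' ?_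
    filter_upwards [ev0] with t ht
    simp only [hb]
    rw [clm t ⟨ht.1.le, ht.2⟩, mulnorm]
  have hLA : ∃ ε : ℝ, 0 < ε ∧ ∀ᶠ s in 𝓝[>] (0 : ℝ), ε ≤ ‖a s / (‖a s‖ : ℂ) - u * e‖ := by
    refine ⟨ε, hε, ?_⟩
    filter_upwards [ev0, hεe] with t ht h
    simp only [ha]
    rw [clm t ⟨ht.1.le, ht.2⟩, mulnorm, ← mul_sub, norm_mul, hu, one_mul]
    exact h
  have hf' : Tendsto (fun t => (b t - ℓ) / (‖b t - ℓ‖ : ℂ)) (𝓝[<] 1) (𝓝 (u * f)) := by
    refine (hf.const_mul u).congr' ?_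
    filter_upwards [ev1] with t ht
    have e1 : b t - ℓ = u * (β t - β 1) := by
      simp only [hb]
      rw [clm t ⟨ht.1, ht.2.le⟩, ← huB, hA, hB]; ring
    rw [e1, mulnorm]
  have hLB : ∃ ε : ℝ, 0 < ε ∧ ∀ᶠ s in 𝓝[<] (1 : ℝ),
      ε ≤ ‖(a s - ℓ) / (‖a s - ℓ‖ : ℂ) - u * f‖ := by
    refine ⟨ε', hε', ?_⟩
    filter_upwards [ev1, hεf] with t ht h
    have e1 : a t - ℓ = u * (α t - α 1) := by
      simp only [ha]
      rw [clm t ⟨ht.1, ht.2.le⟩, ← huB]; ring
    rw [e1, mulnorm, ← mul_sub, norm_mul, hu, one_mul]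
    exact h
  let C : Pool.MP_7ec17a_gt.R.Cfg :=
    { α := a, β := b, ℓ := ℓ, hℓ := hℓ, hα := acont, hβ := bcont, α0 := a0, α1 := a1
      β0 := b0, β1 := b1, R0 := R0, R1 := R1, inj := ainj, disj := disj }
  obtain ⟨p, v, hv, ⟨s1, hs1⟩, ⟨s2, hs2⟩, ⟨s3, hs3⟩, ⟨s4, hs4⟩⟩ :=
    C.core binj he' hLA hf' hLB hr
  have backα : ∀ s z, a s = z → z / u + α 0 ∈ α '' Icc 0 1 := by
    intro s z h
    refine ⟨cl s, clI s, ?_⟩
    rw [← h]
    simp only [ha]
    rw [mul_div_cancel_left₀ _ hu0]; ring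
  have backβ : ∀ s z, b s = z → z / u + α 0 ∈ β '' Icc 0 1 := by
    intro s z h
    refine ⟨cl s, clI s, ?_⟩
    rw [← h, hA]
    simp only [hb]
    rw [mul_div_cancel_left₀ _ hu0]; ring
  refine ⟨p / u + α 0, v / u, div_ne_zero hv hu0, backα s1 p hs1, ?_, ?_, ?_⟩
  · have := backα s2 _ hs2
    have e1 : p / u + α 0 + v / u = (p + v) / u + α 0 := by ring
    rw [e1]; exact this
  · have := backβ s3 _ hs3
    rw [Pool.MP_7ec17a_gt.T.rot_eq] at this
    have e1 : p / u + α 0 + v / u + Complex.I * (r : ℂ) * (v / u) =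
        (p + v + Complex.I * (r : ℂ) * v) / u + α 0 := by ring
    rw [e1]; exact this
  · have := backβ s4 _ hs4
    rw [Pool.MP_7ec17a_gt.T.rot_eq] at this
    have e1 : p / u + α 0 + Complex.I * (r : ℂ) * (v / u) =
        (p + Complex.I * (r : ℂ) * v) / u + α 0 := by ring
    rw [e1]; exact this

end Pool.Agent.Results.MP_7ec17a_gt.RightAngleArcs
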