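import Pool.Agent.Work.MP_7ec17a_gt_S2.Final

/-! Star-shaped Jordan curves without regularity: inscribed rectangles of prescribed ratio. -/

namespace Pool.Agent.Results.MP_7ec17a_gt.StarShaped

open Real

/-- Let `ρ` be continuous, positive and `2π`-periodic, so that the curve `ρ(x) e^{ix}` is an
arbitrary Jordan curve met exactly once by each ray from the origin, and let `r > 0`. Suppose that
at every `x` with `ρ(x)² + ρ(x+π/2)² = ρ(x+b)² + ρ(x+b-π/2)²`, `b = arctan r`, either the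
inequality between the four radii or the inequality between the areas of sectors holds. Then the
curve inscribes a nondegenerate rectangle of aspect ratio `r`. -/
theorem result {ρ : ℝ → ℝ} (hc : Continuous ρ) (hpos : ∀ x, 0 < ρ x)
    (hper : ∀ x, ρ (x + 2 * π) = ρ x) {r : ℝ} (hr : 0 < r)
    (H : ∀ x, ρ x ^ 2 + ρ (x + π / 2) ^ 2 =
        ρ (x + arctan r) ^ 2 + ρ (x + arctan r - π / 2) ^ 2 →
      r * (ρ x * ρ (x + arctan r)) ≤ ρ (x + π / 2) * ρ (x + arctan r) +
        ρ x * ρ (x + arctan r - π / 2) + r * (ρ (x + π / 2) * ρ (x + arctan r - π / 2)) ∨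
      ∀ y, (∫ s in (x + arctan r - π / 2)..x, ρ s ^ 2) +
        (∫ s in (x + arctan r)..(x + π / 2), ρ s ^ 2) +
        2 * (∫ s in y..(y + 2 * arctan r), ρ s ^ 2) < ∫ s in (0 : ℝ)..(2 * π), ρ s ^ 2) :
    ∃ a v : ℂ, v ≠ 0 ∧
      a ∈ Set.range (fun x : ℝ => (ρ x : ℂ) * Complex.exp (x * Complex.I)) ∧
      a + v ∈ Set.range (fun x : ℝ => (ρ x : ℂ) * Complex.exp (x * Complex.I)) ∧
      a + v + Complex.I * (r : ℂ) * v ∈
        Set.range (fun x : ℝ => (ρ x : ℂ) * Complex.exp (x * Complex.I)) ∧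
      a + Complex.I * (r : ℂ) * v ∈
        Set.range (fun x : ℝ => (ρ x : ℂ) * Complex.exp (x * Complex.I)) := by
  have hpi := pi_pos
  have ha0 : 0 < arctan r := by
    rw [← arctan_zero]; exact arctan_strictMono hr
  have ha1 := arctan_lt_pi_div_two r
  have hhalf : 2 * arctan r / 2 = arctan r := by ring
  have hθ : 2 * arctan r ∈ Set.Ioo 0 π := ⟨by linarith, by linarith⟩
  have hR := Star77b.isRect_of_hyp hc hpos hper hθ (by
    intro x hx
    rw [hhalf] at hx ⊢
    rw [tan_arctan]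
    exact H x hx)
  obtain ⟨α1, α2, α3, α4, hne, h3, h4⟩ := hR
  rw [hhalf] at h3 h4
  have hcos : 0 < cos (arctan r) := cos_arctan_pos r
  have hsc : sin (arctan r) / cos (arctan r) = r := by
    rw [← tan_eq_sin_div_cos, tan_arctan]
  have hcs : cos (arctan r) ^ 2 + sin (arctan r) ^ 2 = 1 := by
    have := sin_sq_add_cos_sq (arctan r); linarith
  have hw : Complex.exp ((arctan r : ℝ) * Complex.I) =
      (cos (arctan r) : ℝ) + (sin (arctan r) : ℝ) * Complex.I := by
    rw [Complex.exp_mul_I, Complex.ofReal_cos, Complex.ofReal_sin]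
  obtain ⟨g1, g2, g3, g4⟩ := Star77b.rect_final hcos hw hcs h3 h4 hne
  rw [hsc] at g3 g4
  refine ⟨_, _, g1, ⟨α4, rfl⟩, ?_, ?_, ?_⟩
  · rw [g2]; exact ⟨α1, rfl⟩
  · rw [g3]; exact ⟨α3, rfl⟩
  · rw [g4]; exact ⟨α2, rfl⟩

end Pool.Agent.Results.MP_7ec17a_gt.StarShaped
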